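import Pool.Agent.H788.FH.Chart
import Pool.Agent.H664.FH.Stm2

/-!
Project FH (helper664), second part: the job CHARTB (helper553), a modification of the job CHART (helper788).
-/

set_option autoImplicit false

namespace Pool.Agent.H553.FH

open MvPolynomial Filter Topology Metric Pool.Agent.W996.EC Pool.Agent.Q72.EG
  Pool.Agent.Q251.EG.Reg Pool.Agent.H664.FH Pool.Agent.H788.FH

theorem ev_quarter (η : ℝ) (hη : 0 < η) :
    ∀ᶠ l : ℝ in atTop, (l * l) ^ (1 / 4 : ℝ) ≤ η * l := by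
  filter_upwards [eventually_ge_atTop 1, eventually_ge_atTop (1 / η ^ 2)] with l hl1 hl2
  have hl0 : 0 < l := by linarith
  have h1 : (l * l) ^ (1 / 4 : ℝ) = Real.sqrt l := by
    rw [Real.sqrt_eq_rpow, ← pow_two, ← Real.rpow_natCast, ← Real.rpow_mul hl0.le]
    norm_num
  rw [h1]
  have h2 : Real.sqrt l * Real.sqrt l = l := Real.mul_self_sqrt hl0.le
  have h3 : 1 / η ≤ Real.sqrt l := by
    apply Real.le_sqrt_of_sq_le
    rw [one_div, inv_pow, ← one_div]
    exact hl2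
  rw [div_le_iff₀ hη] at h3
  have h4 : 0 ≤ Real.sqrt l := Real.sqrt_nonneg l
  nlinarith

/-- `K (log T)^3 ≤ T^(1/4)` for large `T` -/
theorem ev_log4 (K : ℝ) : ∀ᶠ T : ℝ in atTop, K * Real.log T ^ 3 ≤ T ^ (1 / 4 : ℝ) := by
  have h1 : (fun x : ℝ => Real.log x ^ (3 : ℝ)) =o[atTop] fun x => x ^ (1 / 4 : ℝ) :=
    isLittleO_log_rpow_rpow_atTop 3 (by norm_num)
  have hK : 0 < 1 / (|K| + 1) := by positivity
  filter_upwards [h1.bound hK, eventually_ge_atTop 1] with T hT hT1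
  have hlog : 0 ≤ Real.log T := Real.log_nonneg hT1
  have h3 : Real.log T ^ (3 : ℝ) = Real.log T ^ 3 := by
    rw [show (3 : ℝ) = ((3 : ℕ) : ℝ) by norm_num, Real.rpow_natCast]
  rw [h3, Real.norm_of_nonneg (by positivity), Real.norm_of_nonneg (by positivity)] at hT
  have h4 : 0 ≤ Real.log T ^ 3 := by positivity
  calc K * Real.log T ^ 3 ≤ (|K| + 1) * Real.log T ^ 3 :=
        mul_le_mul_of_nonneg_right (by linarith [le_abs_self K]) h4
    _ ≤ (|K| + 1) * (1 / (|K| + 1) * T ^ (1 / 4 : ℝ)) :=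
        mul_le_mul_of_nonneg_left hT (by positivity)
    _ = T ^ (1 / 4 : ℝ) := by field_simp

theorem flat_of_flatB (n : ℕ) (P : MvPolynomial (Fin n) ℂ) (α : Fin n → ℝ) (h : HasFlatB P α) :
    HasFlat P α := by
  obtain ⟨e, B, he, h⟩ := h
  refine ⟨e, B, he, fun R hR => ?_⟩
  obtain ⟨D, h⟩ := h R hR
  refine ⟨D, fun K => ?_⟩
  obtain ⟨K1, hK1⟩ := eventually_atTop.1 (ev_log4 K)
  obtain ⟨T, hT1, hT2, k, r, w, hr, hw, hu⟩ := h (max K K1)
  have hsub : ball (0 : Fin n → ℂ) (K * Real.log T ^ 3) ⊆ ball 0 (T ^ (1 / 4 : ℝ)) :=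
    ball_subset_ball (hK1 T ((le_max_right _ _).trans hT1))
  refine ⟨T, (le_max_left _ _).trans hT1, hT2, k, r, w, hr, hw.mono hsub, fun u huu => ?_⟩
  obtain ⟨h1, h2, h3, h4⟩ := hu u (hsub huu)
  exact ⟨h1, (mul_le_mul_of_nonneg_right (le_max_left _ _) (norm_nonneg _)).trans h2, h3, h4⟩

theorem chartB1 : ∀ (n : ℕ) (P : MvPolynomial (Fin n) ℂ) (α : Fin n → ℝ) (f : Polynomial ℂ),
  Irreducible P → α ≠ 0 → 1 ≤ f.natDegree →
  (∃ D L : ℝ, ∀ t : ℝ, L ≤ t → ∃ (k : Fin n → ℝ) (c : ℂ), ‖k‖ ≤ t ^ D ∧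
    ∀ x : Fin n → ℂ, ‖x‖ ≤ t →
      ‖c * eval (fun i => x i + Complex.I * (k i : ℂ)) P - f.eval (∑ l, (α l : ℂ) * x l)‖ ≤ t⁻¹) →
  HasFlatB P α := by
  intro n P α f hP hα hf hlim
  -- the direction
  have hs0 : 0 < ∑ l, α l ^ 2 := by
    obtain ⟨i, hi⟩ := Function.ne_iff.1 hα
    have h1 : α i ^ 2 ≤ ∑ l, α l ^ 2 :=
      Finset.single_le_sum (f := fun l => α l ^ 2) (fun _ _ => sq_nonneg _) (Finset.mem_univ i)
    have h2 : 0 < α i ^ 2 := by
      have : α i ≠ 0 := hi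
      positivity
    linarith
  set e : Fin n → ℝ := fun l => α l / ∑ l, α l ^ 2 with he
  have hαe : ∑ l, α l * e l = 1 := by
    calc ∑ l, α l * e l = (∑ l, α l ^ 2) / ∑ l, α l ^ 2 := by
          rw [Finset.sum_div]
          refine Finset.sum_congr rfl fun l _ => ?_
          simp only [he]
          ring
      _ = 1 := div_self hs0.ne'
  have hαe' : ∑ l, (α l : ℂ) * (e l : ℂ) = 1 := by exact_mod_cast hαe
  clear_value e
  obtain ⟨D0, L, hlim⟩ := hlim
  have hNI : NI P e := ni_of_flat hαe hf hlim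
  have hf0 : f ≠ 0 := by
    rintro rfl
    simp at hf
  obtain ⟨r₀, hr₀⟩ : ∃ r₀, f.IsRoot r₀ := by
    apply IsAlgClosed.exists_root
    rw [Polynomial.degree_eq_natDegree hf0]
    exact_mod_cast (by omega : f.natDegree ≠ 0)
  have hr₀' : f.eval r₀ = 0 := hr₀
  refine ⟨e, ‖r₀‖, hαe, fun R hR => ?_⟩
  obtain ⟨ρ0, α0, β0, hρ0, hE0⟩ := Pool.Agent.Q252.EG.elim n P R e hP hNI hR
  obtain ⟨ρ1, α1, β1, hρ1, hE1⟩ := Pool.Agent.Q252.EG.elim n P (Dk e P) e hP hNI (dk_ndvd hNI)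
  have hρ2 : (Phi e P).leadingCoeff ≠ 0 := by
    rw [Ne, Polynomial.leadingCoeff_eq_zero]
    intro h
    apply natDegree_Phi hNI
    rw [h, Polynomial.natDegree_zero]
  set ρ2 := (Phi e P).leadingCoeff with hρ2d
  -- the sequences
  set t : ℕ → ℝ := fun j => max L 4 + j with ht
  have htL : ∀ j, L ≤ t j := fun j => by
    have : (0 : ℝ) ≤ j := Nat.cast_nonneg j
    have := le_max_left L 4
    simp only [ht]
    linarith
  have ht4 : ∀ j, 4 ≤ t j := fun j => by
    have : (0 : ℝ) ≤ j := Nat.cast_nonneg j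
    have := le_max_right L 4
    simp only [ht]
    linarith
  have htt : Tendsto t atTop atTop := tendsto_atTop_add_const_left _ _ tendsto_natCast_atTop_atTop
  choose k c hk hkc using fun j => hlim (t j) (htL j)
  have hsq : ∀ j, Real.sqrt (t j) * Real.sqrt (t j) = t j := fun j =>
    Real.mul_self_sqrt (by linarith [ht4 j])
  have hsq1 : ∀ j, 1 ≤ Real.sqrt (t j) := fun j => by
    rw [Real.one_le_sqrt]
    linarith [ht4 j]
  have hst : Tendsto (fun j => Real.sqrt (t j)) atTop atTop :=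
    Real.tendsto_sqrt_atTop.comp htt
  obtain ⟨φ, c', ρ', D1, hφ, hρ', hconv', hc'⟩ := Pool.Agent.Q252.EG.norm n (ρ0 * (ρ1 * ρ2))
    (fun j => Real.sqrt (t j)) k (mul_ne_zero hρ0 (mul_ne_zero hρ1 hρ2)) hsq1
  obtain ⟨κ, -, hκ2⟩ := perturb hρ' 0 one_pos
  obtain ⟨m3, η, hm3, hη, hnear3⟩ := near3 _ hκ2
  set zκ : Fin n → ℂ := fun i => Complex.I * (κ i : ℂ) with hzκ
  obtain ⟨Dβ, hDβ0, hDβ⟩ := growth β0
  obtain ⟨D12, hD120, hD12⟩ := growth (ρ1 * ρ2)
  set E : ℝ := max D0 1 + 2 with hE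
  have hE1' : 1 ≤ E := by
    have := le_max_right D0 1
    linarith
  refine ⟨E + (E * |D1| + E * Dβ + E * D12 + 1), fun K => ?_⟩
  set DD : ℝ := E + (E * |D1| + E * Dβ + E * D12 + 1) with hDD
  set K' : ℝ := max K 1 with hK'
  have hK'1 : 1 ≤ K' := le_max_right _ _
  have hK'0 : 0 < K' := by linarith
  obtain ⟨δ, m0, hδ, hδK, hm0, hcirc⟩ := circle hf0 r₀ (show (0 : ℝ) < 1 / K' by positivity)
  have hδ1 : δ ≤ 1 := by
    have : 1 / K' ≤ 1 := by rw [div_le_one hK'0]; exact hK'1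
    linarith
  -- constants
  set A : ℝ := ∑ l, |α l| with hA
  have hA0 : 0 ≤ A := Finset.sum_nonneg fun _ _ => abs_nonneg _
  set ακ : ℝ := ∑ l, α l * κ l with hακ
  set M0 : ℝ := ‖r₀‖ + A * η + |ακ| + 1 with hM0
  have hM00 : 0 ≤ M0 := by positivity
  set CC : ℝ := ‖κ‖ + η + M0 * ‖e‖ with hCC
  have hCC0 : 0 ≤ CC := by positivity
  set Bz : ℝ := ‖zκ‖ + η with hBz
  have e1 := unif hconv' Bz (show (0 : ℝ) < m3 / 2 by positivity)
  have hψt := hst.comp hφ.tendsto_atTop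
  have e2 := hψt.eventually (ev_quarter η hη)
  have e3 := hψt.eventually (eventually_ge_atTop (max (max K CC) (max M0 (max (2 / m3) (2 / m0 + 1)))))
  obtain ⟨j, f1, f2, f3⟩ := (e1.and (e2.and e3)).exists
  simp only [Function.comp] at f2 f3
  have f4 := hc' j
  have f5 := hsq (φ j)
  have f6 := hsq1 (φ j)
  have f7 := hk (φ j)
  have f8 := hkc (φ j)
  have f9 := ht4 (φ j)
  change ‖c' j‖ ≤ (2 + Real.sqrt (t (φ j)) + ‖k (φ j)‖) ^ D1 at f4
  change ∀ x : Fin n → ℂ, ‖x‖ ≤ Bz → ‖eval x (C (c' j) * tr (Real.sqrt (t (φ j))) (k (φ j))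
    (ρ0 * (ρ1 * ρ2))) - eval x ρ'‖ ≤ m3 / 2 at f1
  clear e1 e2 e3 hψt
  generalize Real.sqrt (t (φ j)) = l at *
  generalize t (φ j) = T at *
  generalize k (φ j) = kk at *
  generalize c (φ j) = cs at *
  generalize c' j = cs' at *
  have hl0 : 0 < l := by linarith
  have hlC : (l : ℂ) ≠ 0 := by exact_mod_cast hl0.ne'
  have hT0 : 0 < T := by linarith
  have hT1 : 1 ≤ T := by linarith
  have g1 : K ≤ l := (le_max_left _ _).trans ((le_max_left _ _).trans f3)
  have g2 : CC ≤ l := (le_max_right _ _).trans ((le_max_left _ _).trans f3)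
  have g3 : M0 ≤ l := (le_max_left _ _).trans ((le_max_right _ _).trans f3)
  have g4 : 2 / m3 ≤ l := (le_max_left _ _).trans ((le_max_right _ _).trans
    ((le_max_right _ _).trans f3))
  have g5 : 2 / m0 + 1 ≤ l := (le_max_right _ _).trans ((le_max_right _ _).trans
    ((le_max_right _ _).trans f3))
  have hlT : l ≤ T := by rw [← f5]; nlinarith
  rw [f5] at f2
  -- powers of `T`
  set Q : ℝ := T ^ (max D0 1) with hQ
  have hQT : T ≤ Q := by
    calc T = T ^ (1 : ℝ) := (Real.rpow_one T).symm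
      _ ≤ Q := Real.rpow_le_rpow_of_exponent_le hT1 (le_max_right _ _)
  have hkQ : ‖kk‖ ≤ Q := f7.trans (Real.rpow_le_rpow_of_exponent_le hT1 (le_max_left _ _))
  have hQE : T ^ E = Q * T ^ 2 := by
    rw [hE, Real.rpow_add hT0, Real.rpow_two]
  have h3Q : 3 * Q ≤ T ^ E := by
    have hQ0 : 0 < Q := by linarith
    have h3 : 3 ≤ T ^ 2 := by nlinarith
    rw [hQE, mul_comm 3 Q]
    exact mul_le_mul_of_nonneg_left h3 hQ0.le
  have hTE1 : 1 ≤ T ^ E := by nlinarith
  have hTE2 : 2 ≤ T ^ E := by nlinarith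
  have hW : 2 + l + ‖kk‖ ≤ T ^ E := by linarith
  have hcs' : ‖cs'‖ ≤ T ^ (E * |D1|) := by
    refine f4.trans ?_
    have h1 : 1 ≤ 2 + l + ‖kk‖ := by
      have := norm_nonneg kk
      linarith
    calc (2 + l + ‖kk‖) ^ D1 ≤ (2 + l + ‖kk‖) ^ |D1| :=
          Real.rpow_le_rpow_of_exponent_le h1 (le_abs_self _)
      _ ≤ (T ^ E) ^ |D1| := Real.rpow_le_rpow (by linarith) hW (abs_nonneg _)
      _ = T ^ (E * |D1|) := (Real.rpow_mul hT0.le _ _).symm
  -- centre
  set cc : Fin n → ℂ := fun i => Complex.I * ((kk i + l * κ i : ℝ) : ℂ) with hcc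
  set ws : (Fin n → ℂ) → ℂ := fun u => r₀ - ∑ i, (α i : ℂ) * u i - Complex.I * ((l * ακ : ℝ) : ℂ)
    with hws
  have hwsc : Continuous ws := by
    simp only [hws]
    fun_prop
  have hlin : ∀ u : Fin n → ℂ, ‖∑ i, (α i : ℂ) * u i‖ ≤ A * ‖u‖ := by
    intro u
    refine (norm_sum_le _ _).trans ?_
    rw [hA, Finset.sum_mul]
    refine Finset.sum_le_sum fun i _ => ?_
    rw [norm_mul, Complex.norm_real, Real.norm_eq_abs]
    exact mul_le_mul_of_nonneg_left (norm_le_pi_norm u i) (abs_nonneg _)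
  have hωb : ∀ u : Fin n → ℂ, ‖u‖ ≤ η * l → ∀ ω : ℂ, ‖ω - ws u‖ ≤ δ → ‖ω‖ ≤ M0 * l := by
    intro u hu ω hω
    have h1 : ‖ω‖ ≤ ‖ω - ws u‖ + ‖ws u‖ := by
      calc ‖ω‖ = ‖(ω - ws u) + ws u‖ := by rw [sub_add_cancel]
        _ ≤ _ := norm_add_le _ _
    have h2 : ‖ws u‖ ≤ ‖r₀‖ + A * (η * l) + l * |ακ| := by
      simp only [hws]
      refine (norm_sub_le _ _).trans (add_le_add ((norm_sub_le _ _).trans (add_le_add le_rfl
        ((hlin u).trans (mul_le_mul_of_nonneg_left hu hA0)))) ?_)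
      rw [norm_mul, Complex.norm_I, one_mul, Complex.norm_real, Real.norm_eq_abs, abs_mul,
        abs_of_pos hl0]
    have h3 : ‖r₀‖ ≤ ‖r₀‖ * l := le_mul_of_one_le_right (norm_nonneg _) f6
    rw [hM0]
    nlinarith
  have hxb : ∀ u : Fin n → ℂ, ‖u‖ ≤ η * l → ∀ ω : ℂ, ‖ω‖ ≤ M0 * l →
      ‖(fun i => Complex.I * ((l * κ i : ℝ) : ℂ) + u i + ω * (e i : ℂ) : Fin n → ℂ)‖ ≤ CC * l := by
    intro u hu ω hω
    rw [pi_norm_le_iff_of_nonneg (by positivity)]
    intro i
    refine (norm_add₃_le).trans ?_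
    rw [norm_mul, Complex.norm_I, one_mul, Complex.norm_real, Real.norm_eq_abs, abs_mul,
      abs_of_pos hl0, norm_mul, Complex.norm_real]
    have h1 : l * |κ i| ≤ l * ‖κ‖ := mul_le_mul_of_nonneg_left (norm_le_pi_norm κ i) hl0.le
    have h2 : ‖u i‖ ≤ η * l := (norm_le_pi_norm u i).trans hu
    have h3 : ‖ω‖ * ‖e i‖ ≤ (M0 * l) * ‖e‖ :=
      mul_le_mul hω (norm_le_pi_norm e i) (norm_nonneg _) (by positivity)
    rw [hCC]
    nlinarith
  have key : ∀ u : Fin n → ℂ, ‖u‖ ≤ η * l → ∀ ω : ℂ, ‖ω - ws u‖ ≤ δ →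
      ‖cs * eval (fun i => cc i + u i + ω * (e i : ℂ)) P - f.eval (r₀ + (ω - ws u))‖ ≤ T⁻¹ := by
    intro u hu ω hω
    have h1 := f8 (fun i => Complex.I * ((l * κ i : ℝ) : ℂ) + u i + ω * (e i : ℂ))
      ((hxb u hu ω (hωb u hu ω hω)).trans (by rw [← f5]; gcongr))
    have h2 : (fun i => (Complex.I * ((l * κ i : ℝ) : ℂ) + u i + ω * (e i : ℂ)) +
        Complex.I * (kk i : ℂ)) = fun i => cc i + u i + ω * (e i : ℂ) := by
      funext i
      simp only [hcc]
      push_cast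
      ring
    have h3 : ∑ i, (α i : ℂ) * (Complex.I * ((l * κ i : ℝ) : ℂ) + u i + ω * (e i : ℂ)) =
        r₀ + (ω - ws u) := by
      have h4 : ∑ i, (α i : ℂ) * (Complex.I * ((l * κ i : ℝ) : ℂ) + u i + ω * (e i : ℂ)) =
          Complex.I * ((l * ακ : ℝ) : ℂ) + ∑ i, (α i : ℂ) * u i +
            ω * ∑ i, (α i : ℂ) * (e i : ℂ) := by
        rw [hακ, Finset.mul_sum, Complex.ofReal_sum, Finset.mul_sum, Finset.mul_sum,
          ← Finset.sum_add_distrib, ← Finset.sum_add_distrib]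
        refine Finset.sum_congr rfl fun i _ => ?_
        push_cast
        ring
      rw [h4, hαe']
      simp only [hws]
      ring
    rw [h2, h3] at h1
    exact h1
  -- lower bound of `ρ`
  have hρlow : ∀ u : Fin n → ℂ, ‖u‖ ≤ η * l →
      m3 / 2 ≤ T ^ (E * |D1|) * ‖eval (fun i => cc i + u i) (ρ0 * (ρ1 * ρ2))‖ := by
    intro u hu
    set z : Fin n → ℂ := fun i => zκ i + u i / l with hz
    have hzz : ‖z - zκ‖ ≤ η := by
      rw [pi_norm_le_iff_of_nonneg hη.le]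
      intro i
      simp only [hz, Pi.sub_apply, add_sub_cancel_left]
      rw [norm_div, Complex.norm_real, Real.norm_of_nonneg hl0.le, div_le_iff₀ hl0]
      exact (norm_le_pi_norm u i).trans hu
    have hzB : ‖z‖ ≤ Bz := by
      calc ‖z‖ = ‖zκ + (z - zκ)‖ := by rw [add_sub_cancel]
        _ ≤ _ := (norm_add_le _ _).trans (by rw [hBz]; linarith)
    have h3 := f1 z hzB
    have h4 := hnear3 z hzz
    have hzu : (fun i => (l : ℂ) * z i + Complex.I * (kk i : ℂ)) = fun i => cc i + u i := by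
      funext i
      simp only [hz, hzκ, hcc]
      field_simp
      push_cast
      ring
    rw [map_mul, eval_C, eval_tr, hzu] at h3
    have h5 : ‖eval z ρ'‖ ≤ ‖cs' * eval (fun i => cc i + u i) (ρ0 * (ρ1 * ρ2))‖ + m3 / 2 := by
      calc ‖eval z ρ'‖ = ‖cs' * eval (fun i => cc i + u i) (ρ0 * (ρ1 * ρ2)) -
              (cs' * eval (fun i => cc i + u i) (ρ0 * (ρ1 * ρ2)) - eval z ρ')‖ := by
              rw [sub_sub_cancel]
        _ ≤ _ := (norm_sub_le _ _).trans (add_le_add le_rfl h3)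
    rw [norm_mul] at h5
    have h6 := mul_le_mul_of_nonneg_right hcs' (norm_nonneg
      (eval (fun i => cc i + u i) (ρ0 * (ρ1 * ρ2))))
    linarith
  have hρne : ∀ u : Fin n → ℂ, ‖u‖ ≤ η * l →
      eval (fun i => cc i + u i) (ρ0 * (ρ1 * ρ2)) ≠ 0 := by
    intro u hu h3
    have h4 := hρlow u hu
    rw [h3, norm_zero, mul_zero] at h4
    linarith
  have hTinv : T⁻¹ < m0 / 2 := by
    have h1 : 2 / m0 < T := by linarith
    rw [div_lt_iff₀ hm0] at h1
    rw [inv_lt_comm₀ hT0 (by positivity), inv_div, div_lt_iff₀ hm0]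
    linarith
  have hS0 : 0 < T ^ (1 / 4 : ℝ) := Real.rpow_pos_of_pos hT0 _
  have hball : ∀ u ∈ ball (0 : Fin n → ℂ) (T ^ (1 / 4 : ℝ)), ‖u‖ ≤ η * l := by
    intro u hu
    rw [mem_ball, dist_zero_right] at hu
    exact hu.le.trans f2
  obtain ⟨Z, hZ1, hZ2⟩ := core2 hNI ρ1 α1 β1 hE1 cc ws hwsc cs δ (m0 / 2) (T ^ (1 / 4 : ℝ)) hδ
    (by positivity) hS0
    (by
      intro u hu ω hω
      have h1 := key u (hball u hu) ω hω.le
      have h2 := hcirc (ω - ws u) hω
      have h3 := norm_sub_norm_le (f.eval (r₀ + (ω - ws u)))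
        (cs * eval (fun i => cc i + u i + ω * (e i : ℂ)) P)
      rw [norm_sub_rev] at h3
      linarith)
    (by
      have h1 := key 0 (by rw [norm_zero]; positivity) (ws 0) (by
        rw [sub_self, norm_zero]; exact hδ.le)
      rw [sub_self, add_zero, hr₀', sub_zero] at h1
      have h2 : (fun i => cc i + (0 : Fin n → ℂ) i + ws 0 * (e i : ℂ)) =
          fun i => cc i + ws 0 * (e i : ℂ) := by
        funext i
        simp
      rw [h2] at h1
      linarith)
    (by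
      intro u hu
      have h3 := hρne u (hball u hu)
      rw [map_mul, map_mul] at h3
      exact ⟨left_ne_zero_of_mul (right_ne_zero_of_mul h3),
        right_ne_zero_of_mul (right_ne_zero_of_mul h3)⟩)
  refine ⟨T, g1.trans hlT, by linarith, fun i => kk i + l * κ i - l * ακ * e i, r₀,
    fun u => Z u + Complex.I * ((l * ακ : ℝ) : ℂ), le_rfl,
    hZ1.add_const _, fun u hu => ?_⟩
  have hu' := hu
  have hub := hball u hu'
  obtain ⟨hz1, hz2⟩ := hZ2 u hu'
  have hcp : cp (fun i => kk i + l * κ i - l * ακ * e i) e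
      (fun u => Z u + Complex.I * ((l * ακ : ℝ) : ℂ)) u =
      fun i => cc i + u i + Z u * (e i : ℂ) := by
    funext i
    simp only [cp, hcc]
    push_cast
    ring
  rw [hcp]
  have hZb := hωb u hub (Z u) hz2.le
  have hx := hxb u hub (Z u) hZb
  have hCCT : CC * l ≤ T := by rw [← f5]; gcongr
  refine ⟨hz1, ?_, ?_, ?_⟩
  · have h1 : Z u + Complex.I * ((l * ακ : ℝ) : ℂ) + ∑ i, (α i : ℂ) * u i - r₀ = Z u - ws u := by
      simp only [hws]
      ring
    rw [h1]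
    have h2 : K * ‖Z u - ws u‖ ≤ K' * ‖Z u - ws u‖ :=
      mul_le_mul_of_nonneg_right (le_max_left _ _) (norm_nonneg _)
    have h3 : K' * ‖Z u - ws u‖ ≤ K' * (1 / K') :=
      mul_le_mul_of_nonneg_left (hz2.le.trans hδK.le) hK'0.le
    have h4 : K' * (1 / K') = 1 := by field_simp
    linarith
  · have h1 : ‖(fun i => cc i + u i + Z u * (e i : ℂ) : Fin n → ℂ)‖ ≤ CC * l + ‖kk‖ := by
      rw [pi_norm_le_iff_of_nonneg (by positivity)]
      intro i
      have h2 : cc i + u i + Z u * (e i : ℂ) =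
          (Complex.I * ((l * κ i : ℝ) : ℂ) + u i + Z u * (e i : ℂ)) + Complex.I * (kk i : ℂ) := by
        simp only [hcc]
        push_cast
        ring
      rw [h2]
      refine (norm_add_le _ _).trans (add_le_add ?_ ?_)
      · exact (norm_le_pi_norm (fun i => Complex.I * ((l * κ i : ℝ) : ℂ) + u i +
          Z u * (e i : ℂ) : Fin n → ℂ) i).trans hx
      · rw [norm_mul, Complex.norm_I, one_mul, Complex.norm_real]
        exact norm_le_pi_norm kk i
    have h2 : T ^ E ≤ T ^ DD := by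
      apply Real.rpow_le_rpow_of_exponent_le hT1
      rw [hDD]
      have : 0 ≤ E * |D1| + E * Dβ + E * D12 + 1 := by positivity
      linarith
    linarith
  · have h8 := hE0 (fun i => cc i + u i) (Z u)
    rw [hz1, mul_zero, zero_add] at h8
    have h9 := hρlow u hub
    rw [map_mul, h8, norm_mul, norm_mul] at h9
    have hsb : ‖(fun i => cc i + u i : Fin n → ℂ)‖ ≤ T ^ E := by
      have h1 : ‖(fun i => cc i + u i : Fin n → ℂ)‖ ≤ CC * l + ‖kk‖ := by
        rw [pi_norm_le_iff_of_nonneg (by positivity)]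
        intro i
        have h2 : cc i + u i =
            (Complex.I * ((l * κ i : ℝ) : ℂ) + u i + 0 * (e i : ℂ)) + Complex.I * (kk i : ℂ) := by
          simp only [hcc]
          push_cast
          ring
        rw [h2]
        refine (norm_add_le _ _).trans (add_le_add ?_ ?_)
        · exact (norm_le_pi_norm (fun i => Complex.I * ((l * κ i : ℝ) : ℂ) + u i +
            0 * (e i : ℂ) : Fin n → ℂ) i).trans (hxb u hub 0 (by rw [norm_zero]; positivity))
        · rw [norm_mul, Complex.norm_I, one_mul, Complex.norm_real]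
          exact norm_le_pi_norm kk i
      linarith
    have hZE : ‖Z u‖ ≤ T ^ E := by
      have : M0 * l ≤ T := by rw [← f5]; gcongr
      linarith
    have hsq2 : ∀ x : ℝ, x ≤ T ^ E → x ≤ (T ^ E) ^ 2 := by
      intro x hx
      nlinarith
    have h10 : ‖eval (oe (Z u) (fun i => cc i + u i)) β0‖ ≤ T ^ (E * Dβ) := by
      rw [Real.rpow_mul hT0.le]
      refine hDβ (T ^ E) hTE2 _ ?_
      rw [pi_norm_le_iff_of_nonneg (by positivity)]
      intro i
      rcases i with _ | i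
      · exact hsq2 _ hZE
      · exact hsq2 _ ((norm_le_pi_norm (fun i => cc i + u i : Fin n → ℂ) i).trans hsb)
    have h11 : ‖eval (fun i => cc i + u i) (ρ1 * ρ2)‖ ≤ T ^ (E * D12) := by
      rw [Real.rpow_mul hT0.le]
      exact hD12 (T ^ E) hTE2 _ (hsq2 _ hsb)
    set X := ‖eval (fun i => cc i + u i + Z u * (e i : ℂ)) R‖ with hX
    have hX0 : 0 ≤ X := norm_nonneg _
    have h12 : m3 / 2 ≤ T ^ (E * |D1| + E * Dβ + E * D12) * X := by
      refine h9.trans ?_
      rw [Real.rpow_add hT0, Real.rpow_add hT0]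
      have h13 : ‖eval (oe (Z u) (fun i => cc i + u i)) β0‖ * X *
          ‖eval (fun i => cc i + u i) (ρ1 * ρ2)‖ ≤ T ^ (E * Dβ) * X * T ^ (E * D12) := by
        gcongr
      calc T ^ (E * |D1|) * (‖eval (oe (Z u) (fun i => cc i + u i)) β0‖ * X *
            ‖eval (fun i => cc i + u i) (ρ1 * ρ2)‖)
          ≤ T ^ (E * |D1|) * (T ^ (E * Dβ) * X * T ^ (E * D12)) := by gcongr
        _ = T ^ (E * |D1|) * T ^ (E * Dβ) * T ^ (E * D12) * X := by ring
    have h14 : 1 ≤ T * (m3 / 2) := by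
      have h15 : 2 / m3 ≤ T := g4.trans hlT
      rw [div_le_iff₀ hm3] at h15
      linarith
    have h16 : 1 ≤ T ^ (E * |D1| + E * Dβ + E * D12 + 1) * X := by
      calc (1 : ℝ) ≤ T * (m3 / 2) := h14
        _ ≤ T * (T ^ (E * |D1| + E * Dβ + E * D12) * X) := by gcongr
        _ = T ^ (E * |D1| + E * Dβ + E * D12 + 1) * X := by
            rw [Real.rpow_add_one hT0.ne' (E * |D1| + E * Dβ + E * D12)]
            ring
    rw [Real.rpow_neg hT0.le, inv_le_iff_one_le_mul₀ (by positivity)]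
    refine h16.trans ?_
    rw [mul_comm X]
    refine mul_le_mul_of_nonneg_right ?_ hX0
    apply Real.rpow_le_rpow_of_exponent_le hT1
    rw [hDD]
    linarith

theorem chartB : S_chartB := ⟨chartB1, flat_of_flatB⟩

end Pool.Agent.H553.FH
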